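import Mathlib
import Pool.Agent.K7.H85.Sidon.Nec
import Pool.Agent.K7.H85.Sidon.Suff

set_option autoImplicit false

/-!
# Subgaussian sets of characters on `(ℤ/m)^ℕ` are the finite unions of quasi-independent sets

The case `m = 4` is the question. Sketch of the new direction. If `Λ` is subgaussian then
`|J| ≤ C log |⟨J⟩|` for all finite `J ⊆ Λ`, hence `|J| ≤ C' ∑_p dim (⟨J⟩ / p⟨J⟩)`, the sum over the
primes `p` dividing `m`. For a finite `I ⊆ Λ` consider the classes of its elements in the vector spaces
`⟨I⟩ / p⟨I⟩`. Let `J ⊊ I` maximize `|J| - C' ∑_p rank_p(J)`. By the matroid partition theorem `I \ J`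
is a union of `C' · #{p}` sets which are independent modulo the span of `J` in one of these spaces, and
by induction `J` (with the spaces `⟨J⟩ / p⟨J⟩`) is a union of `C' · #{p}` quasi-independent sets. The
unions of one set of each kind are quasi-independent. A compactness argument treats infinite `Λ`.
-/

namespace Pool.Agent.Results.MP_080bf7_an.BoundedExponent

open Pool.Agent.K7.H85.Sidon

/-- Let `m ≥ 2` and let `Λ` be a set of nontrivial characters of the compact group `(ℤ/m)^ℕ`. Then `Λ` is
subgaussian if and only if it is a finite union of quasi-independent sets. -/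
theorem result (m : ℕ) [NeZero m] (hm : 2 ≤ m) (Λ : Set (ℕ →₀ ZMod m)) (h0 : (0 : ℕ →₀ ZMod m) ∉ Λ) :
    Subgaussian m Λ ↔
      ∃ (K : ℕ) (P : Fin K → Set (ℕ →₀ ZMod m)), Λ = ⋃ i, P i ∧ ∀ i, QuasiIndependent (P i) := by
  constructor
  · intro h
    obtain ⟨C, hC⟩ := counting Λ h0 h
    exact finite_union m hm (fun x => by ext k; simp) Λ C hC
  · rintro ⟨K, P, hΛ, hP⟩
    exact subgaussian_of_union Λ P hΛ hP

end Pool.Agent.Results.MP_080bf7_an.BoundedExponent
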